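import Mathlib
import Pool.Agent.K7.H68.MO.Defs

set_option autoImplicit false
set_option linter.unusedSectionVars false

/-!
# The push-forward `D A → D (A.erase z)` (job 2 of the project on `M̄_{0,n+1}`)
-/

open Finset MvPolynomial

namespace Pool.Agent.K7.H57.MO

open Pool.Agent.K7.H68.MO

noncomputable section

/-! ## Generic part -/

section generic

variable {α : Type} [DecidableEq α] {R : Type} [CommRing R]

/-- The relations of `D E`, for elements `v S` of a commutative ring. -/
structure Rel (E : Finset α) (v : Finset α → R) : Prop where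
  out : ∀ S, ¬ S ⊆ E → v S = 0
  small : ∀ S : Finset α, S.card < 2 → v S = 0
  cross : ∀ S T, Cross S T → v S * v T = 0
  lin : ∀ i ∈ E, ∀ j ∈ E, i ≠ j → ∑ S ∈ E.powerset with i ∈ S ∧ j ∈ S, v S = 0

/-- sum over the larger sets -/
def Hg (E : Finset α) (v : Finset α → R) (T : Finset α) : R := ∑ U ∈ E.powerset with T ⊂ U, v U

/-- the push-forward of the powers -/
def Kg (E : Finset α) (v : Finset α → R) (T : Finset α) : ℕ → R
  | 0 => 0
  | 1 => if T.card = 1 then 1 else if T = E then -1 else 0
  | (a + 2) => - Hg E v T * Kg E v T (a + 1) - (if T.card = 1 then 0 else v T ^ (a + 1))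

variable {E : Finset α} {v : Finset α → R}

theorem Kg_succ (h : Rel E v) (T : Finset α) (a : ℕ) :
    Kg E v T (a + 2) = - Hg E v T * Kg E v T (a + 1) - v T ^ (a + 1) := by
  rw [Kg]
  split_ifs with hT
  · rw [h.small T (by omega), zero_pow (by omega)]
  · rfl

theorem mul_Kg (h : Rel E v) {T : Finset α} {c : R} (h1 : c * Kg E v T 1 = 0) (hx : c * v T = 0) :
    ∀ a, c * Kg E v T a = 0
  | 0 => by simp [Kg]
  | 1 => h1
  | (a + 2) => by
    rw [Kg_succ h, mul_sub, mul_left_comm, mul_Kg h h1 hx (a + 1), pow_succ', ← mul_assoc, hx]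
    simp

/-- the linear functional `t ^ a ↦ K a` -/
def Lg (E : Finset α) (v : Finset α → R) (T : Finset α) : Polynomial R →ₗ[R] R :=
  Polynomial.lsum (fun a => LinearMap.mulRight R (Kg E v T a))

theorem Lg_monomial (T : Finset α) (a : ℕ) (c : R) :
    Lg E v T (Polynomial.monomial a c) = c * Kg E v T a := by
  rw [Lg, Polynomial.lsum_apply, Polynomial.sum_monomial_index]
  · simp
  · simp

theorem Lg_C_mul (T : Finset α) (c : R) (q : Polynomial R) :
    Lg E v T (Polynomial.C c * q) = c * Lg E v T q := by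
  rw [← Polynomial.smul_eq_C_mul, map_smul, smul_eq_mul]

theorem Lg_C (T : Finset α) (c : R) : Lg E v T (Polynomial.C c) = 0 := by
  rw [← Polynomial.monomial_zero_left, Lg_monomial]
  simp [Kg]

theorem mul_Lg {T : Finset α} {c : R} (hc : ∀ a, c * Kg E v T a = 0) (q : Polynomial R) :
    c * Lg E v T q = 0 := by
  induction q using Polynomial.induction_on' with
  | add p q hp hq => rw [map_add, mul_add, hp, hq, add_zero]
  | monomial a b => rw [Lg_monomial, mul_left_comm, hc, mul_zero]

theorem Lg_rec (h : Rel E v) (T : Finset α) (q : Polynomial R) :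
    Lg E v T ((Polynomial.X + Polynomial.C (Hg E v T)) * q) =
      Kg E v T 1 * q.eval 0 - (q.eval (v T) - q.eval 0) := by
  induction q using Polynomial.induction_on' with
  | add p q hp hq =>
    rw [mul_add, map_add, hp, hq, Polynomial.eval_add, Polynomial.eval_add]
    ring
  | monomial a b =>
    rw [add_mul, Polynomial.X_mul_monomial, Polynomial.C_mul_monomial, map_add, Lg_monomial,
      Lg_monomial]
    rcases a with _ | a
    · simp [Kg]
      try ring
    · rw [Kg_succ h]
      simp
      ring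

/-- the evaluation at `y T = t`, `y U = v U` for `T ⊂ U`, `y U = 0` otherwise -/
def ev (v : Finset α → R) (T : Finset α) : MvPolynomial (Finset α) R →ₐ[R] Polynomial R :=
  aeval (fun U => if U = T then Polynomial.X else if T ⊂ U then Polynomial.C (v U) else 0)

theorem ev_X (T U : Finset α) : ev v T (X U) =
    if U = T then Polynomial.X else if T ⊂ U then Polynomial.C (v U) else 0 := by
  rw [ev, aeval_X]

/-- the sum of the functionals -/
def kap (E : Finset α) (v : Finset α → R) : MvPolynomial (Finset α) R →ₗ[R] R :=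
  ∑ T ∈ E.powerset with T.Nonempty, (Lg E v T).comp (ev v T).toLinearMap

theorem kap_apply (p : MvPolynomial (Finset α) R) :
    kap E v p = ∑ T ∈ E.powerset with T.Nonempty, Lg E v T (ev v T p) := by
  rw [kap, LinearMap.sum_apply]
  rfl

/-- a set crossing `T` kills `K T a` -/
theorem cross_mul_Kg (h : Rel E v) {T W : Finset α} (hc : Cross W T) (a : ℕ) :
    v W * Kg E v T a = 0 := by
  refine mul_Kg h ?_ (h.cross _ _ hc) a
  rw [Kg]
  split_ifs with h1 h2
  · exfalso
    obtain ⟨t, rfl⟩ := Finset.card_eq_one.1 h1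
    refine hc.2.1 ?_
    have h3 := hc.2.2
    rw [Finset.disjoint_singleton_right, not_not] at h3
    simpa using h3
  · rw [h.out W (by rw [← h2]; exact hc.1), zero_mul]
  · rw [mul_zero]

/-! ### the relation with `z` -/

theorem ev_sum_of_mem {T : Finset α} {i : α} (hT : T ⊆ E) (hi : i ∈ T) :
    ev v T (∑ U ∈ E.powerset with i ∈ U, X U) = Polynomial.X + Polynomial.C (Hg E v T) := by
  rw [map_sum]
  simp only [ev_X]
  have h1 : T ∈ E.powerset.filter (fun U => i ∈ U) := by simp [hT, hi]
  rw [← Finset.add_sum_erase _ _ h1, if_pos rfl, Hg, map_sum]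
  congr 1
  have h2 : ∀ U ∈ (E.powerset.filter (fun U => i ∈ U)).erase T,
      (if U = T then Polynomial.X else if T ⊂ U then Polynomial.C (v U) else 0 : Polynomial R) =
      if T ⊂ U then Polynomial.C (v U) else 0 := by
    intro U hU
    rw [if_neg (Finset.ne_of_mem_erase hU)]
  rw [Finset.sum_congr rfl h2, ← Finset.sum_filter]
  refine Finset.sum_congr ?_ (fun _ _ => rfl)
  ext U
  simp only [mem_filter, mem_erase, mem_powerset]
  constructor
  · rintro ⟨⟨_, hU, _⟩, hTU⟩
    exact ⟨hU, hTU⟩
  · rintro ⟨hU, hTU⟩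
    exact ⟨⟨hTU.ne', hU, hTU.1 hi⟩, hTU⟩

theorem ev_sum_of_notMem {T : Finset α} {i : α} (hi : i ∉ T) :
    ev v T (∑ U ∈ E.powerset with i ∈ U, X U) =
      Polynomial.C (∑ U ∈ E.powerset with i ∈ U ∧ T ⊂ U, v U) := by
  rw [map_sum, map_sum]
  simp only [ev_X]
  have h2 : ∀ U ∈ (E.powerset.filter (fun U => i ∈ U)),
      (if U = T then Polynomial.X else if T ⊂ U then Polynomial.C (v U) else 0 : Polynomial R) =
      if T ⊂ U then Polynomial.C (v U) else 0 := by
    intro U hU
    rw [if_neg]
    rintro rfl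
    exact hi (Finset.mem_filter.1 hU).2
  rw [Finset.sum_congr rfl h2, ← Finset.sum_filter, Finset.filter_filter]

theorem notMem_mul_Kg (h : Rel E v) {T : Finset α} (hT : T ⊆ E) (hne : T.Nonempty) {i : α}
    (hiE : i ∈ E) (hi : i ∉ T) (a : ℕ) :
    (∑ U ∈ E.powerset with i ∈ U ∧ T ⊂ U, v U) * Kg E v T a = 0 := by
  by_cases h1 : T.card = 1
  · obtain ⟨j, rfl⟩ := Finset.card_eq_one.1 h1
    have hij : i ≠ j := by simpa using hi
    have h2 : (E.powerset.filter (fun U => i ∈ U ∧ {j} ⊂ U)) =
        E.powerset.filter (fun U => i ∈ U ∧ j ∈ U) := by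
      refine Finset.filter_congr fun U hU => ?_
      constructor
      · rintro ⟨h3, h4⟩
        exact ⟨h3, by simpa using h4.1⟩
      · rintro ⟨h3, h4⟩
        refine ⟨h3, ?_, fun h5 => ?_⟩
        · simpa using h4
        · exact hij (by simpa using h5 h3)
    rw [h2, h.lin i hiE j (by simpa using hT) hij, zero_mul]
  · obtain ⟨j, hj⟩ := hne
    have hij : i ≠ j := fun h3 => hi (h3 ▸ hj)
    refine mul_Kg h ?_ ?_ a
    · rw [Kg, if_neg h1, if_neg, mul_zero]
      rintro rfl
      exact hi hiE
    · have h3 := congrArg (· * v T) (h.lin i hiE j (hT hj) hij)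
      simp only [zero_mul] at h3
      rw [← h3, Finset.sum_mul, Finset.sum_mul]
      have h4 : (E.powerset.filter (fun U => i ∈ U ∧ T ⊂ U)) ⊆
          E.powerset.filter (fun U => i ∈ U ∧ j ∈ U) := by
        intro U hU
        rw [Finset.mem_filter] at hU ⊢
        exact ⟨hU.1, hU.2.1, hU.2.2.1 hj⟩
      refine Finset.sum_subset h4 fun U hU hU' => ?_
      rw [Finset.mem_filter] at hU hU'
      refine h.cross U T ⟨fun h5 => hi (h5 hU.2.1), fun h5 => hU' ⟨hU.1, hU.2.1, ?_⟩, ?_⟩
      · exact ⟨h5, fun h6 => hi (h6 hU.2.1)⟩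
      · exact fun h6 => Finset.disjoint_left.1 h6 hU.2.2 hj

/-- product of the generators of the monomial -/
def pr (v : Finset α → R) (e : Finset α →₀ ℕ) : R := e.prod fun U k => v U ^ k

theorem ev_monomial_eval (T : Finset α) (e : Finset α →₀ ℕ) (c : R) :
    (ev v T (monomial e 1)).eval c = e.prod fun U k =>
      (if U = T then c else if T ⊂ U then v U else 0) ^ k := by
  rw [ev, aeval_monomial, map_one, one_mul, ← Polynomial.coe_evalRingHom, map_finsuppProd]
  refine Finsupp.prod_congr fun U _ => ?_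
  rw [map_pow]
  congr 1
  split_ifs <;> simp

theorem eval_zero (T : Finset α) (e : Finset α →₀ ℕ) :
    (ev v T (monomial e 1)).eval 0 = if ∀ U ∈ e.support, T ⊂ U then pr v e else 0 := by
  rw [ev_monomial_eval]
  split_ifs with h1
  · refine Finsupp.prod_congr fun U hU => ?_
    rw [if_neg (h1 U hU).ne', if_pos (h1 U hU)]
  · push Not at h1
    obtain ⟨U, hU, hTU⟩ := h1
    refine Finset.prod_eq_zero hU ?_
    beta_reduce
    rw [if_neg hTU, ite_self, zero_pow (Finsupp.mem_support_iff.1 hU)]

theorem eval_one (T : Finset α) (e : Finset α →₀ ℕ) :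
    (ev v T (monomial e 1)).eval (v T) = if ∀ U ∈ e.support, T ⊆ U then pr v e else 0 := by
  rw [ev_monomial_eval]
  split_ifs with h1
  · refine Finsupp.prod_congr fun U hU => ?_
    congr 1
    split_ifs with h2 h3
    · rw [h2]
    · rfl
    · exact absurd ⟨h1 U hU, fun h4 => h2 (Finset.Subset.antisymm h4 (h1 U hU))⟩ h3
  · push Not at h1
    obtain ⟨U, hU, hTU⟩ := h1
    refine Finset.prod_eq_zero hU ?_
    beta_reduce
    rw [if_neg (fun h2 : U = T => hTU h2.ge), if_neg (fun h2 => hTU h2.1),
      zero_pow (Finsupp.mem_support_iff.1 hU)]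

theorem pr_eq_zero {e : Finset α →₀ ℕ} {U : Finset α} (hU : U ∈ e.support) (h : v U = 0) :
    pr v e = 0 :=
  Finset.prod_eq_zero hU (by beta_reduce; rw [h, zero_pow (Finsupp.mem_support_iff.1 hU)])

theorem pr_eq_zero_of_mul {e : Finset α →₀ ℕ} {U V : Finset α} (hU : U ∈ e.support)
    (hV : V ∈ e.support) (hUV : U ≠ V) (h : v U * v V = 0) : pr v e = 0 := by
  unfold pr Finsupp.prod
  rw [← Finset.mul_prod_erase _ _ hU, ← Finset.mul_prod_erase _ _ (Finset.mem_erase.2 ⟨hUV.symm, hV⟩)]
  obtain ⟨k, hk⟩ := Nat.exists_eq_succ_of_ne_zero (Finsupp.mem_support_iff.1 hU)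
  obtain ⟨l, hl⟩ := Nat.exists_eq_succ_of_ne_zero (Finsupp.mem_support_iff.1 hV)
  rw [hk, hl, Nat.succ_eq_add_one, Nat.succ_eq_add_one]
  beta_reduce
  rw [pow_succ, pow_succ]
  linear_combination (v U ^ k * v V ^ l * ∏ x ∈ (e.support.erase U).erase V, v x ^ e x) * h

/-- the combinatorial identity behind the relation with `z` -/
theorem key (h : Rel E v) (hE : 2 ≤ E.card) {i : α} (hi : i ∈ E) (e : Finset α →₀ ℕ) :
    ∑ T ∈ E.powerset with i ∈ T, (Kg E v T 1 * (if ∀ U ∈ e.support, T ⊂ U then pr v e else 0) -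
      ((if ∀ U ∈ e.support, T ⊆ U then pr v e else 0) -
        (if ∀ U ∈ e.support, T ⊂ U then pr v e else 0))) = 0 := by
  rw [Finset.sum_sub_distrib]
  have hEi : ({i} : Finset α) ≠ E := by
    rintro rfl
    simp at hE
  have h1 : ∑ T ∈ E.powerset with i ∈ T,
      Kg E v T 1 * (if ∀ U ∈ e.support, T ⊂ U then pr v e else 0) =
      (if ∀ U ∈ e.support, {i} ⊂ U then pr v e else 0) -
      (if ∀ U ∈ e.support, E ⊂ U then pr v e else 0) := by
    have h2 : ∀ T ∈ E.powerset.filter (fun T => i ∈ T),
        Kg E v T 1 * (if ∀ U ∈ e.support, T ⊂ U then pr v e else 0) =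
        (if T = {i} then (if ∀ U ∈ e.support, T ⊂ U then pr v e else 0) else 0) -
        (if T = E then (if ∀ U ∈ e.support, T ⊂ U then pr v e else 0) else 0) := by
      intro T hT
      rw [Finset.mem_filter] at hT
      have h3 : T.card = 1 ↔ T = {i} := by
        constructor
        · intro h4
          obtain ⟨j, rfl⟩ := Finset.card_eq_one.1 h4
          have : i = j := by simpa using hT.2
          rw [this]
        · rintro rfl
          simp
      rw [Kg]
      by_cases h4 : T = {i}
      · have h5 : T ≠ E := by rw [h4]; exact hEi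
        rw [if_pos (h3.2 h4), if_pos h4, if_neg h5]
        ring
      · rw [if_neg (fun h5 => h4 (h3.1 h5)), if_neg h4]
        split_ifs <;> ring
    have h6 : ({i} : Finset α) ∈ E.powerset.filter (fun T => i ∈ T) := by simp [hi]
    have h7 : E ∈ E.powerset.filter (fun T => i ∈ T) := by simp [hi]
    rw [Finset.sum_congr rfl h2, Finset.sum_sub_distrib, Finset.sum_ite_eq', Finset.sum_ite_eq',
      if_pos h6, if_pos h7]
  rw [h1, sub_eq_zero]
  by_cases he : e.support = ∅
  · rw [he]
    simp
  have hne : e.support.Nonempty := Finset.nonempty_iff_ne_empty.2 he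
  have h2 : (if ∀ U ∈ e.support, E ⊂ U then pr v e else 0) = 0 := by
    split_ifs with h3
    · obtain ⟨U, hU⟩ := hne
      exact pr_eq_zero hU (h.out U (h3 U hU).2)
    · rfl
  rw [h2, sub_zero]
  have h3 : ∀ T ∈ E.powerset.filter (fun T => i ∈ T),
      ((if ∀ U ∈ e.support, T ⊆ U then pr v e else 0) -
        (if ∀ U ∈ e.support, T ⊂ U then pr v e else 0)) =
      if T ∈ e.support ∧ ∀ U ∈ e.support, T ⊆ U then pr v e else 0 := by
    intro T _
    by_cases h4 : ∀ U ∈ e.support, T ⊆ U
    · rw [if_pos h4]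
      by_cases h5 : T ∈ e.support
      · rw [if_neg (fun h6 => (h6 T h5).ne rfl), if_pos ⟨h5, h4⟩, sub_zero]
      · rw [if_pos, if_neg (fun h6 => h5 h6.1), sub_self]
        intro U hU
        refine ⟨h4 U hU, fun h6 => h5 ?_⟩
        rw [Finset.Subset.antisymm (h4 U hU) h6]
        exact hU
    · rw [if_neg h4, if_neg (fun h6 => h4 fun U hU => (h6 U hU).1), if_neg (fun h6 => h4 h6.2),
        sub_zero]
  rw [Finset.sum_congr rfl h3]
  by_cases h4 : ∀ U ∈ e.support, i ∈ U
  · by_cases h5 : pr v e = 0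
    · rw [h5]
      simp
    · -- the support is a chain
      have hchain : ∀ U ∈ e.support, ∀ V ∈ e.support, U ⊆ V ∨ V ⊆ U := by
        intro U hU V hV
        by_contra h6
        push Not at h6
        refine h5 (pr_eq_zero_of_mul hU hV (fun h7 => h6.1 h7.le) (h.cross U V ⟨h6.1, h6.2, ?_⟩))
        exact fun h7 => Finset.disjoint_left.1 h7 (h4 U hU) (h4 V hV)
      obtain ⟨T, hT, hmin⟩ := Finset.exists_minimal hne
      have hleast : ∀ U ∈ e.support, T ⊆ U := by
        intro U hU
        rcases hchain T hT U hU with h6 | h6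
        · exact h6
        · exact hmin hU h6
      have hTE : T ⊆ E := by
        by_contra h6
        exact h5 (pr_eq_zero hT (h.out T h6))
      rw [if_pos, Finset.sum_eq_single T]
      · rw [if_pos ⟨hT, hleast⟩]
      · intro U _ hUT
        rw [if_neg]
        rintro ⟨h7, h8⟩
        exact hUT (Finset.Subset.antisymm (h8 T hT) (hleast U h7))
      · intro h7
        exact absurd (by simp [hTE, h4 T hT]) h7
      · intro U hU
        refine ⟨by simpa using h4 U hU, fun h6 => h5 (pr_eq_zero hU (h.small U ?_))⟩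
        have := Finset.card_le_card h6
        rw [Finset.card_singleton] at this
        omega
  · rw [if_neg (fun h5 => h4 fun U hU => by simpa using (h5 U hU).1)]
    symm
    refine Finset.sum_eq_zero fun T hT => ?_
    rw [if_neg]
    rintro ⟨h5, h6⟩
    exact h4 fun U hU => h6 U hU (Finset.mem_filter.1 hT).2

theorem kap_lin (h : Rel E v) (hE : 2 ≤ E.card) {i : α} (hi : i ∈ E)
    (Y : MvPolynomial (Finset α) R) :
    kap E v ((∑ U ∈ E.powerset with i ∈ U, X U) * Y) = 0 := by
  induction Y using MvPolynomial.induction_on' with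
  | add p q hp hq => rw [mul_add, map_add, hp, hq, add_zero]
  | monomial e c =>
    have h0 : (monomial e c : MvPolynomial (Finset α) R) = c • monomial e 1 := by
      rw [smul_monomial, smul_eq_mul, mul_one]
    rw [h0, mul_smul_comm, map_smul]
    suffices h1 : kap E v ((∑ U ∈ E.powerset with i ∈ U, X U) * monomial e 1) = 0 by
      rw [h1, smul_zero]
    rw [kap_apply, ← key h hE hi e]
    have h2 : ∀ T ∈ E.powerset.filter (fun T => T.Nonempty),
        Lg E v T (ev v T ((∑ U ∈ E.powerset with i ∈ U, X U) * monomial e 1)) =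
        if i ∈ T then (Kg E v T 1 * (if ∀ U ∈ e.support, T ⊂ U then pr v e else 0) -
          ((if ∀ U ∈ e.support, T ⊆ U then pr v e else 0) -
          (if ∀ U ∈ e.support, T ⊂ U then pr v e else 0))) else 0 := by
      intro T hT
      rw [Finset.mem_filter, Finset.mem_powerset] at hT
      rw [map_mul]
      by_cases h3 : i ∈ T
      · rw [if_pos h3, ev_sum_of_mem hT.1 h3, Lg_rec h, eval_zero, eval_one]
      · rw [if_neg h3, ev_sum_of_notMem h3, Lg_C_mul]
        exact mul_Lg (notMem_mul_Kg h hT.1 hT.2 hi h3) _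
    rw [Finset.sum_congr rfl h2, ← Finset.sum_filter, Finset.filter_filter]
    refine Finset.sum_congr ?_ (fun _ _ => rfl)
    refine Finset.filter_congr fun T _ => ?_
    exact ⟨fun h => h.2, fun h => ⟨⟨i, h⟩, h⟩⟩

/-! ### the map `θ` -/

variable [Algebra ℚ R] {z : α}

/-- the map `θ` -/
def th (E : Finset α) (v : Finset α → R) (z : α) :
    MvPolynomial (Finset α) ℚ →ₐ[ℚ] MvPolynomial (Finset α) R :=
  aeval (fun S => if S ⊆ insert z E ∧ 2 ≤ S.card then (if z ∈ S then X (S.erase z) else
    C (v S) - X S) else 0)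

theorem th_X (S : Finset α) : th E v z (X S) = if S ⊆ insert z E ∧ 2 ≤ S.card then
    (if z ∈ S then X (S.erase z) else C (v S) - X S) else 0 := by
  rw [th, aeval_X]

theorem ev_C (T : Finset α) (c : R) : ev v T (C c) = Polynomial.C c := by
  rw [ev, MvPolynomial.aeval_C]
  rfl

/-- `ev T (θ (X S))` if `z ∈ S` -/
theorem phi_mem {S : Finset α} (hS : S ⊆ insert z E ∧ 2 ≤ S.card) (hz : z ∈ S) (T : Finset α) :
    ev v T (th E v z (X S)) = if S.erase z = T then Polynomial.X else
      if T ⊂ S.erase z then Polynomial.C (v (S.erase z)) else 0 := by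
  rw [th_X, if_pos hS, if_pos hz, ev_X]

/-- `ev T (θ (X S))` if `z ∉ S` -/
theorem phi_notMem {S : Finset α} (hS : S ⊆ insert z E ∧ 2 ≤ S.card) (hz : z ∉ S) (T : Finset α) :
    ev v T (th E v z (X S)) = if S = T then Polynomial.C (v T) - Polynomial.X else
      if T ⊂ S then 0 else Polynomial.C (v S) := by
  rw [th_X, if_pos hS, if_neg hz, map_sub, ev_X, ev_C]
  split_ifs with h1 h2
  · rw [h1]
  · rw [sub_self]
  · rw [sub_zero]

theorem phi_out {S : Finset α} (hS : ¬ (S ⊆ insert z E ∧ 2 ≤ S.card)) (T : Finset α) :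
    ev v T (th E v z (X S)) = 0 := by
  rw [th_X, if_neg hS, map_zero]

theorem Lg_C_mul_zero {T : Finset α} {c : R} (hc : c = 0) (q : Polynomial R) :
    Lg E v T (Polynomial.C c * q) = 0 := by
  rw [hc, map_zero, zero_mul, map_zero]

theorem cross_comm {S T : Finset α} (h : Cross S T) : Cross T S :=
  ⟨h.2.1, h.1, fun h1 => h.2.2 h1.symm⟩

theorem rel_cross_mem_notMem (h : Rel E v) {S S' : Finset α} (hc : Cross S S')
    (hS : S ⊆ insert z E ∧ 2 ≤ S.card) (hS' : S' ⊆ insert z E ∧ 2 ≤ S'.card)
    (hzS : z ∈ S) (hzS' : z ∉ S') {T : Finset α} (q : Polynomial R) :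
    Lg E v T (ev v T (th E v z (X S)) * ev v T (th E v z (X S')) * q) = 0 := by
  have hU1 : ¬ S' ⊆ S.erase z := fun h1 => hc.2.1 (h1.trans (Finset.erase_subset _ _))
  have hU2 : ¬ Disjoint (S.erase z) S' := by
    intro h1
    refine hc.2.2 (Finset.disjoint_left.2 fun a ha ha' => ?_)
    by_cases haz : a = z
    · exact hzS' (haz ▸ ha')
    · exact Finset.disjoint_left.1 h1 (Finset.mem_erase.2 ⟨haz, ha⟩) ha'
  rw [phi_mem hS hzS, phi_notMem hS' hzS']
  by_cases h1 : S.erase z = T
  · subst h1
    rw [if_pos rfl, if_neg (fun h2 => hU1 h2.le)]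
    by_cases h3 : S.erase z ⊂ S'
    · rw [if_pos h3]
      simp
    · rw [if_neg h3, mul_comm Polynomial.X, mul_assoc, Lg_C_mul]
      refine mul_Lg (cross_mul_Kg h ⟨hU1, fun h4 => h3 ⟨h4, hU1⟩, fun h4 => hU2 h4.symm⟩) _
  · rw [if_neg h1]
    by_cases h2 : T ⊂ S.erase z
    · rw [if_pos h2, if_neg (fun h3 : S' = T => hU1 (h3 ▸ h2.1))]
      by_cases h3 : T ⊂ S'
      · rw [if_pos h3]
        simp
      · rw [if_neg h3, ← Polynomial.C_mul]
        refine Lg_C_mul_zero (h.cross _ _ ⟨fun h4 => h3 ?_, hU1, hU2⟩) _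
        exact ⟨h2.1.trans h4, fun h5 => hU1 (h5.trans h2.1)⟩
    · rw [if_neg h2]
      simp

theorem rel_cross (h : Rel E v) {S S' : Finset α} (hc : Cross S S') {T : Finset α}
    (hne : T.Nonempty) (q : Polynomial R) :
    Lg E v T (ev v T (th E v z (X S)) * ev v T (th E v z (X S')) * q) = 0 := by
  by_cases hS : S ⊆ insert z E ∧ 2 ≤ S.card
  swap
  · rw [phi_out hS]
    simp
  by_cases hS' : S' ⊆ insert z E ∧ 2 ≤ S'.card
  swap
  · rw [phi_out hS']
    simp
  by_cases hzS : z ∈ S
  · by_cases hzS' : z ∈ S'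
    · have hU1 : ¬ S.erase z ⊆ S'.erase z := by
        intro h1
        refine hc.1 ?_
        rw [← Finset.insert_erase hzS, ← Finset.insert_erase hzS']
        exact Finset.insert_subset_insert z h1
      have hU2 : ¬ S'.erase z ⊆ S.erase z := by
        intro h1
        refine hc.2.1 ?_
        rw [← Finset.insert_erase hzS, ← Finset.insert_erase hzS']
        exact Finset.insert_subset_insert z h1
      rw [phi_mem hS hzS, phi_mem hS' hzS']
      by_cases h1 : S.erase z = T
      · subst h1
        rw [if_pos rfl, if_neg (fun h2 => hU2 h2.le), if_neg (fun h2 => hU1 h2.1)]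
        simp
      · rw [if_neg h1]
        by_cases h2 : T ⊂ S.erase z
        · rw [if_pos h2, if_neg (fun h3 : S'.erase z = T => hU2 (h3 ▸ h2.1))]
          by_cases h3 : T ⊂ S'.erase z
          · rw [if_pos h3, ← Polynomial.C_mul]
            refine Lg_C_mul_zero (h.cross _ _ ⟨hU1, hU2, fun h4 => ?_⟩) _
            obtain ⟨a, ha⟩ := hne
            exact Finset.disjoint_left.1 h4 (h2.1 ha) (h3.1 ha)
          · rw [if_neg h3]
            simp
        · rw [if_neg h2]
          simp
    · exact rel_cross_mem_notMem h hc hS hS' hzS hzS' q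
  · by_cases hzS' : z ∈ S'
    · rw [mul_comm (ev v T (th E v z (X S)))]
      exact rel_cross_mem_notMem h (cross_comm hc) hS' hS hzS' hzS q
    · rw [phi_notMem hS hzS, phi_notMem hS' hzS']
      by_cases h1 : S = T
      · subst h1
        rw [if_pos rfl, if_neg (fun h2 => hc.1 h2.ge), if_neg (fun h2 => hc.1 h2.1),
          mul_comm _ (Polynomial.C (v S')), mul_assoc, Lg_C_mul]
        exact mul_Lg (cross_mul_Kg h (cross_comm hc)) _
      · rw [if_neg h1]
        by_cases h2 : T ⊂ S
        · rw [if_pos h2]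
          simp
        · rw [if_neg h2]
          by_cases h3 : S' = T
          · subst h3
            rw [if_pos rfl, mul_assoc, Lg_C_mul]
            exact mul_Lg (cross_mul_Kg h hc) _
          · rw [if_neg h3]
            by_cases h4 : T ⊂ S'
            · rw [if_pos h4]
              simp
            · rw [if_neg h4, ← Polynomial.C_mul]
              exact Lg_C_mul_zero (h.cross _ _ hc) _

theorem th_lin_inner (h : Rel E v) (hz : z ∉ E) {i j : α} (hi : i ∈ E) (hj : j ∈ E) (hij : i ≠ j) :
    th E v z (∑ S ∈ (insert z E).powerset with i ∈ S ∧ j ∈ S, X S) = 0 := by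
  have hiz : i ≠ z := fun h1 => hz (h1 ▸ hi)
  have hjz : j ≠ z := fun h1 => hz (h1 ▸ hj)
  rw [map_sum, Finset.sum_filter, Finset.sum_powerset_insert hz, ← Finset.sum_add_distrib]
  have h1 : ∀ S ∈ E.powerset, ((if i ∈ S ∧ j ∈ S then th E v z (X S) else 0) +
      if i ∈ insert z S ∧ j ∈ insert z S then th E v z (X (insert z S)) else 0) =
      if i ∈ S ∧ j ∈ S then (C (v S) : MvPolynomial (Finset α) R) else 0 := by
    intro S hS
    rw [Finset.mem_powerset] at hS
    have hzS : z ∉ S := fun h2 => hz (hS h2)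
    have h2 : (i ∈ insert z S ∧ j ∈ insert z S) ↔ (i ∈ S ∧ j ∈ S) := by
      simp [hiz, hjz]
    by_cases h3 : i ∈ S ∧ j ∈ S
    · have h4 : 2 ≤ S.card := by
        rw [← Finset.card_pair hij]
        refine Finset.card_le_card ?_
        intro a ha
        simp only [Finset.mem_insert, Finset.mem_singleton] at ha
        rcases ha with rfl | rfl
        · exact h3.1
        · exact h3.2
      rw [if_pos h3, if_pos (h2.2 h3), if_pos h3, th_X, th_X, if_pos, if_neg hzS, if_pos,
        if_pos (Finset.mem_insert_self _ _), Finset.erase_insert hzS, sub_add_cancel]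
      · refine ⟨Finset.insert_subset_insert z hS, h4.trans ?_⟩
        exact Finset.card_le_card (Finset.subset_insert _ _)
      · exact ⟨hS.trans (Finset.subset_insert _ _), h4⟩
    · rw [if_neg h3, if_neg (fun h4 => h3 (h2.1 h4)), if_neg h3, add_zero]
  rw [Finset.sum_congr rfl h1, ← Finset.sum_filter, ← map_sum, h.lin i hi j hj hij, map_zero]

theorem th_lin_z (hz : z ∉ E) {i : α} (hi : i ∈ E) :
    th E v z (∑ S ∈ (insert z E).powerset with i ∈ S ∧ z ∈ S, X S) =
      ∑ U ∈ E.powerset with i ∈ U, (X U : MvPolynomial (Finset α) R) := by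
  have hiz : i ≠ z := fun h1 => hz (h1 ▸ hi)
  rw [map_sum, Finset.sum_filter, Finset.sum_powerset_insert hz, ← Finset.sum_add_distrib,
    Finset.sum_filter]
  refine Finset.sum_congr rfl fun S hS => ?_
  rw [Finset.mem_powerset] at hS
  have hzS : z ∉ S := fun h2 => hz (hS h2)
  rw [if_neg (fun h1 => hzS h1.2), zero_add]
  by_cases h3 : i ∈ S
  · rw [if_pos h3, if_pos, th_X, if_pos, if_pos (Finset.mem_insert_self _ _),
      Finset.erase_insert hzS]
    · refine ⟨Finset.insert_subset_insert z hS, ?_⟩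
      rw [← Finset.card_pair hiz]
      refine Finset.card_le_card ?_
      intro a ha
      simp only [Finset.mem_insert, Finset.mem_singleton] at ha ⊢
      rcases ha with rfl | rfl
      · exact Or.inr h3
      · exact Or.inl rfl
    · simp [h3]
  · rw [if_neg h3, if_neg]
    simp [h3, hiz]

theorem kap_th (h : Rel E v) (hz : z ∉ E) (hE : 2 ≤ E.card) {p : MvPolynomial (Finset α) ℚ}
    (hp : p ∈ Ideal.span (relD (insert z E))) :
    ∀ Y : MvPolynomial (Finset α) R, kap E v (th E v z p * Y) = 0 := by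
  induction hp using Submodule.span_induction with
  | zero => intro Y; simp
  | add p q _ _ hp hq => intro Y; rw [map_add, add_mul, map_add, hp, hq, add_zero]
  | smul a p _ hp =>
    intro Y
    rw [smul_eq_mul, map_mul (th E v z), mul_comm (th E v z a), mul_assoc]
    exact hp _
  | mem p hp =>
    intro Y
    rcases hp with (⟨S, hS, rfl⟩ | ⟨S, S', hc, rfl⟩) | ⟨i, hi, j, hj, hij, rfl⟩
    · rw [th_X, if_neg, zero_mul, map_zero]
      rintro ⟨h1, h2⟩
      rcases hS with hS | hS
      · exact hS h1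
      · omega
    · rw [map_mul (th E v z), kap_apply]
      refine Finset.sum_eq_zero fun T hT => ?_
      rw [map_mul (ev v T), map_mul (ev v T)]
      exact rel_cross h hc (Finset.mem_filter.1 hT).2 _
    · rw [Finset.mem_insert] at hi hj
      rcases hi with rfl | hi
      · rcases hj with rfl | hj
        · exact absurd rfl hij
        · have h1 : ∀ S : Finset α, (i ∈ S ∧ j ∈ S) ↔ (j ∈ S ∧ i ∈ S) := fun S => and_comm
          simp only [h1]
          rw [th_lin_z hz hj]
          exact kap_lin h hE hj Y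
      · rcases hj with rfl | hj
        · rw [th_lin_z hz hi]
          exact kap_lin h hE hi Y
        · rw [th_lin_inner h hz hi hj hij, zero_mul, map_zero]

/-! ### the values -/

theorem ev_th_monomial (T : Finset α) (e : Finset α →₀ ℕ) :
    ev v T (th E v z (monomial e 1)) = e.prod fun S k => (ev v T (th E v z (X S))) ^ k := by
  rw [show th E v z (monomial e 1) = e.prod fun S k => (th E v z (X S)) ^ k from ?_,
    map_finsuppProd]
  · refine Finsupp.prod_congr fun S _ => ?_
    rw [map_pow]
  · rw [th, aeval_monomial, map_one, one_mul]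
    refine Finsupp.prod_congr fun S _ => ?_
    rw [aeval_X]

theorem value (h : Rel E v) {e : Finset α →₀ ℕ} {B : Finset α}
    (hB : B ∈ e.support) (hzB : z ∈ B) (hBE : B ⊆ insert z E) (hB2 : 2 ≤ B.card)
    (he : ∀ S ∈ e.support, S ⊆ insert z E ∧ (B ⊆ S ∨ Disjoint B S)) :
    kap E v (th E v z (monomial e 1)) =
      Kg E v (B.erase z) (e B) * ∏ S ∈ e.support.erase B, v (S.erase z) ^ e S := by
  have hne : (B.erase z).Nonempty := by
    rw [← Finset.card_pos, Finset.card_erase_of_mem hzB]
    omega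
  have hBE' : B.erase z ⊆ E := by
    rw [← Finset.subset_insert_iff]
    exact hBE
  rw [kap_apply, Finset.sum_eq_single (B.erase z)]
  · rw [ev_th_monomial]
    unfold Finsupp.prod
    rw [← Finset.mul_prod_erase _ _ hB]
    beta_reduce
    rw [phi_mem ⟨hBE, hB2⟩ hzB, if_pos rfl]
    have h1 : ∀ S ∈ e.support.erase B, (ev v (B.erase z) (th E v z (X S))) ^ (e S) =
        Polynomial.C (v (S.erase z) ^ e S) := by
      intro S hS
      rw [Finset.mem_erase] at hS
      rw [Polynomial.C_pow]
      congr 1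
      obtain ⟨h2, h3⟩ := he S hS.2
      rcases h3 with h3 | h3
      · have h4 : B ⊂ S := ⟨h3, fun h4 => hS.1 (Finset.Subset.antisymm h4 h3)⟩
        have h5 : B.erase z ⊂ S.erase z := by
          refine ⟨Finset.erase_subset_erase z h3, fun h6 => h4.2 ?_⟩
          rw [← Finset.insert_erase hzB, ← Finset.insert_erase (h3 hzB)]
          exact Finset.insert_subset_insert z h6
        rw [phi_mem ⟨h2, hB2.trans (Finset.card_le_card h3)⟩ (h3 hzB), if_neg h5.ne', if_pos h5]
      · have h4 : z ∉ S := fun h5 => Finset.disjoint_left.1 h3 hzB h5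
        rw [Finset.erase_eq_of_notMem h4]
        by_cases h5 : 2 ≤ S.card
        · obtain ⟨a, ha⟩ := hne
          have h6 : a ∉ S := fun h7 =>
            Finset.disjoint_left.1 h3 (Finset.mem_of_mem_erase ha) h7
          rw [phi_notMem ⟨h2, h5⟩ h4, if_neg, if_neg]
          · exact fun h7 => h6 (h7.1 ha)
          · rintro h7
            exact h6 (h7 ▸ ha)
        · rw [phi_out (fun h6 => h5 h6.2), h.small S (by omega), map_zero]
    rw [Finset.prod_congr rfl h1, ← map_prod, mul_comm, Lg_C_mul, ← Polynomial.monomial_one_right_eq_X_pow,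
      Lg_monomial, one_mul, mul_comm]
  · intro T hT hTB
    rw [Finset.mem_filter] at hT
    rw [ev_th_monomial]
    by_cases h1 : T ⊂ B.erase z
    · obtain ⟨a, ha⟩ := hT.2
      have h2 : (e.prod fun S k => (ev v T (th E v z (X S))) ^ k) ∈
          (Polynomial.C : R →+* Polynomial R).range := by
        refine Subring.prod_mem _ fun S hS => Subring.pow_mem _ ?_ _
        obtain ⟨h2, h3⟩ := he S hS
        rcases h3 with h3 | h3
        · have h5 : T ⊂ S.erase z := Finset.ssubset_of_ssubset_of_subset h1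
            (Finset.erase_subset_erase z h3)
          rw [phi_mem ⟨h2, hB2.trans (Finset.card_le_card h3)⟩ (h3 hzB), if_neg h5.ne', if_pos h5]
          exact ⟨_, rfl⟩
        · have h4 : z ∉ S := fun h5 => Finset.disjoint_left.1 h3 hzB h5
          by_cases h5 : 2 ≤ S.card
          · have h6 : a ∉ S := fun h7 =>
              Finset.disjoint_left.1 h3 (Finset.mem_of_mem_erase (h1.1 ha)) h7
            rw [phi_notMem ⟨h2, h5⟩ h4, if_neg, if_neg]
            · exact ⟨_, rfl⟩
            · exact fun h7 => h6 (h7.1 ha)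
            · rintro h7
              exact h6 (h7 ▸ ha)
          · rw [phi_out (fun h6 => h5 h6.2)]
            exact Subring.zero_mem _
      obtain ⟨c, hc⟩ := h2
      rw [← hc, Lg_C]
    · rw [show (e.prod fun S k => (ev v T (th E v z (X S))) ^ k) = 0 from ?_, map_zero]
      refine Finset.prod_eq_zero hB ?_
      beta_reduce
      rw [phi_mem ⟨hBE, hB2⟩ hzB, if_neg (fun h2 => hTB h2.symm), if_neg h1,
        zero_pow (Finsupp.mem_support_iff.1 hB)]
  · intro h1
    exact absurd (by simp [hBE', hne]) h1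

end generic

/-! ## The theorem -/

theorem rel_D {α : Type} [DecidableEq α] (E : Finset α) : Rel E (x E) where
  out S hS := Ideal.Quotient.eq_zero_iff_mem.2 (Ideal.subset_span (Or.inl (Or.inl ⟨S, Or.inl hS, rfl⟩)))
  small S hS := Ideal.Quotient.eq_zero_iff_mem.2
    (Ideal.subset_span (Or.inl (Or.inl ⟨S, Or.inr hS, rfl⟩)))
  cross S T h := by
    unfold x
    rw [← map_mul]
    exact Ideal.Quotient.eq_zero_iff_mem.2 (Ideal.subset_span (Or.inl (Or.inr ⟨S, T, h, rfl⟩)))
  lin i hi j hj hij := by
    unfold x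
    rw [← map_sum]
    exact Ideal.Quotient.eq_zero_iff_mem.2 (Ideal.subset_span (Or.inr ⟨i, hi, j, hj, hij, rfl⟩))

theorem Kg_eq {α : Type} [DecidableEq α] (E T : Finset α) : ∀ a, Kg E (x E) T a = K E T a
  | 0 => rfl
  | 1 => rfl
  | (a + 2) => by
    rw [Kg, K, Kg_eq E T (a + 1)]
    rfl

theorem job2 : Job2 := by
  intro α _ A z hz hA
  obtain ⟨E, hzE, rfl⟩ : ∃ E : Finset α, z ∉ E ∧ A = insert z E :=
    ⟨A.erase z, Finset.notMem_erase z A, (Finset.insert_erase hz).symm⟩
  rw [Finset.erase_insert hzE]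
  have hE : 2 ≤ E.card := by
    rw [Finset.card_insert_of_notMem hzE] at hA
    omega
  let f : MvPolynomial (Finset α) ℚ →ₗ[ℚ] D E :=
    ((kap E (x E)).restrictScalars ℚ).comp (th E (x E) z).toLinearMap
  have hf : (Ideal.span (relD (insert z E))).restrictScalars ℚ ≤ LinearMap.ker f := by
    intro p hp
    have h1 := kap_th (rel_D E) hzE hE hp 1
    rw [mul_one] at h1
    exact h1
  refine ⟨(((Ideal.span (relD (insert z E))).restrictScalars ℚ).liftQ f hf).comp
    (Submodule.Quotient.restrictScalarsEquiv ℚ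
      (Ideal.span (relD (insert z E)))).symm.toLinearMap, ?_⟩
  intro e B hB hzB hBE hB2 he
  rw [← Kg_eq]
  exact value (rel_D E) hB hzB hBE hB2 he

end

end Pool.Agent.K7.H57.MO
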